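import Pool.Agent.N162.GP.Stm
import Pool.Agent.Y184.NT.TrForm
import Pool.Agent.Y172.Cov3

/-!
# Project GP (helper162), part TRF (helper619): the traces of the regular forms
-/

set_option autoImplicit false
set_option linter.all false

open FF Pool.Agent.W603.LV Pool.Agent.Y184.NT Pool.Agent.N162.BC IntermediateField MvPolynomial
open Pool.Agent.W602.GT

namespace Pool.Agent.N619.GP

section

variable {L K' : Type} [Field L] [Algebra ℂ L] [Field K'] [Algebra ℂ K'] [Algebra L K']
  [IsScalarTower ℂ L K'] [FiniteDimensional L K'] {n : ℕ}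

/-- the lifts of the coordinate derivations map the intermediate fields to themselves -/
theorem lift_mem (hL : Algebra.trdeg ℂ L = n) {l : Fin n → L} {E0 : Fin n → Derivation ℂ L L}
    (hl : IsTranscendenceBasis ℂ l) (hE0 : ∀ i j, E0 i (l j) = if i = j then 1 else 0)
    {E' : Fin n → Derivation ℂ K' K'}
    (hE' : ∀ i f, E' i (algebraMap L K' f) = algebraMap L K' (E0 i f))
    (F : IntermediateField L K') (i : Fin n) (z : K') (hz : z ∈ F) : E' i z ∈ F := by
  obtain ⟨D1, hD1⟩ := Pool.Agent.Y172.exists_lift (k := ℂ) (K := L) (L := F) hL (E0 i)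
  have hF : Algebra.trdeg ℂ F = n := Pool.Agent.Y172.trdeg_up (K := L) hL
  have : IsScalarTower ℂ F K' := IsScalarTower.of_algebraMap_eq fun c => by
    rw [IsScalarTower.algebraMap_apply ℂ L K', IsScalarTower.algebraMap_apply ℂ L F]
    rfl
  obtain ⟨D2, hD2⟩ := Pool.Agent.Y172.exists_lift (k := ℂ) (K := F) (L := K') hF D1
  have hl2 : IsTranscendenceBasis ℂ (fun j => algebraMap L K' (l j)) := hl.algebraMap_comp
  have hE2 := fun i j => Pool.Agent.Y172.lift_dual (L := K') hE0 hE' i j
  have h1 := Pool.Agent.W73.PG.PULL.expand _ hl2 E' hE2 D2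
  have h2 : ∀ j, D2 (algebraMap L K' (l j)) = if i = j then 1 else 0 := by
    intro j
    have h3 : algebraMap L K' (l j) = algebraMap F K' (algebraMap L F (l j)) := rfl
    rw [h3, hD2, hD1, hE0]
    split_ifs <;> simp
  have h3 : E' i = D2 := by
    rw [← h1]
    simp only [h2, ite_smul, one_smul, zero_smul, Finset.sum_ite_eq, Finset.mem_univ, if_true]
  rw [h3]
  have h4 := hD2 ⟨z, hz⟩
  have h5 : algebraMap F K' (⟨z, hz⟩ : F) = z := rfl
  rw [h5] at h4
  rw [h4]
  exact (D1 ⟨z, hz⟩).2

end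

theorem det_mem {L K' : Type} [Field L] [Field K'] [Algebra L K'] (F : IntermediateField L K')
    {n : ℕ} (A : Matrix (Fin n) (Fin n) K') (hA : ∀ i j, A i j ∈ F) : A.det ∈ F := by
  rw [Matrix.det_apply]
  refine sum_mem fun σ _ => ?_
  have h1 : ∏ i, A (σ i) i ∈ F := prod_mem fun i _ => hA _ _
  rw [Units.smul_def]
  exact zsmul_mem h1 _

theorem trf_ (hp : Pool.Agent.Y184.NT.StPull) : Pool.Agent.N162.GP.StTRF := by
  intro n L K K' _ _ _ _ _ _ _ _ _ _ _ _ _ _ hn ω₀ hω₀ hne
  have hK' : Algebra.trdeg ℂ K' = n := by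
    have h1 := trdeg_add_eq ℂ K (A := K')
    have h2 : Algebra.trdeg K K' = 0 := trdeg_eq_zero
    rw [h2, add_zero, hn] at h1
    exact h1.symm
  have hL : Algebra.trdeg ℂ L = n := by
    have h1 := trdeg_add_eq ℂ L (A := K')
    have h2 : Algebra.trdeg L K' = 0 := trdeg_eq_zero
    rw [h2, add_zero, hK'] at h1
    exact h1
  have hess : Algebra.EssFiniteType ℂ K' := Algebra.EssFiniteType.comp ℂ L K'
  obtain ⟨l, E0, hl, hE0⟩ := Pool.Agent.Y172.exists_crd (k := ℂ) (K := L) hL
  choose E' hE' using fun i : Fin n =>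
    Pool.Agent.Y172.exists_lift (k := ℂ) (K := L) (L := K') hL (E0 i)
  have hl2 : IsTranscendenceBasis ℂ (fun j => algebraMap L K' (l j)) := hl.algebraMap_comp
  have hE2 := fun i j => Pool.Agent.Y172.lift_dual (L := K') hE0 hE' i j
  obtain ⟨y, e, hy, he⟩ := Pool.Agent.Y172.exists_crd (k := ℂ) (K := K) hn
  have hy2 : IsTranscendenceBasis ℂ (fun j => algebraMap K K' (y j)) := hy.algebraMap_comp
  choose F hF using fun i : Fin n => exists_der _ hy2 fun j => if i = j then 1 else 0
  have hω0 : ω₀ e ≠ 0 := by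
    intro h0
    obtain ⟨D, hD⟩ := hne
    apply hD
    rw [Pool.Agent.Y172.pluri_coord hy he hω₀ D, h0, mul_zero]
  have hdet : (Matrix.of fun i j => E' i (algebraMap K K' (y j))).det ≠ 0 := by
    intro h0
    have h1 := Pool.Agent.Y172.pluri_coord hy2 hF
      (trForm_pluri (fun j => algebraMap L K' (l j)) 1) E'
    rw [h0, pow_one, zero_mul] at h1
    unfold trForm at h1
    have h2 : (Matrix.of fun i j => E' i (algebraMap L K' (l j)) :
        Matrix (Fin n) (Fin n) K') = 1 := by
      ext i j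
      rw [Matrix.of_apply, hE2, Matrix.one_apply]
    rw [h2, Matrix.det_one, one_mul] at h1
    exact one_ne_zero h1
  refine ⟨(Matrix.of fun i j => E' i (algebraMap K K' (y j))).det * algebraMap K K' (ω₀ e),
    trForm l 1, ?_, ?_, trForm_pluri l 1, ⟨E0, ?_⟩, ?_⟩
  · refine mul_ne_zero hdet ?_
    rwa [Ne, map_eq_zero]
  · refine mul_mem (det_mem _ _ fun i j => ?_) ?_
    · rw [Matrix.of_apply]
      exact lift_mem hL hl hE0 hE' _ i _ (IntermediateField.subset_adjoin _ _ ⟨y j, rfl⟩)
    · exact IntermediateField.subset_adjoin _ _ ⟨ω₀ e, rfl⟩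
  · unfold trForm
    have h2 : (Matrix.of fun i j => E0 i (l j) : Matrix (Fin n) (Fin n) L) = 1 := by
      ext i j
      rw [Matrix.of_apply, hE0, Matrix.one_apply]
    rw [h2, Matrix.det_one, one_mul]
    exact one_ne_zero
  · intro b hb
    obtain ⟨W, hW⟩ : ∃ W : (Fin n → Derivation ℂ K' K') → K',
      W = trForm (fun j => algebraMap K K' (y j)) (algebraMap K K' (b * ω₀ e)) := ⟨_, rfl⟩
    have hWp : IsPluri 1 W := by
      rw [hW]
      exact trForm_pluri _ _
    have hWr : ∀ Q : Place ℂ K', Divisorial n Q → RegAt Q W := by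
      intro Q hQ D hD
      rw [hW]
      exact hp K K' n n hn hK' y hy e he (fun D => b * ω₀ D) hb.1 hb.2 Q hQ D hD
    have hWE : W E' = algebraMap K K' b *
        ((Matrix.of fun i j => E' i (algebraMap K K' (y j))).det * algebraMap K K' (ω₀ e)) := by
      rw [hW]
      unfold trForm
      rw [map_mul]
      ring
    have h1 : (fun D => Algebra.trace L K' (algebraMap K K' b *
        ((Matrix.of fun i j => E' i (algebraMap K K' (y j))).det * algebraMap K K' (ω₀ e))) *
          trForm l 1 D) = trForm l (Algebra.trace L K' (W E')) := by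
      funext D
      rw [hWE]
      unfold trForm
      ring
    rw [h1]
    exact ⟨trForm_pluri _ _, fun P hP => trForm_reg hL hl hE0 hE' W hWp hWr P hP⟩

end Pool.Agent.N619.GP
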